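import Pool.Agent.ATW.Stmts
import Pool.Agent.Helper95_AT8.AVB
import Pool.Agent.Helper41_AT3.NIT

/-!
# AVP: averages over cosets of a subgroup of `V ^ 2`
-/

set_option autoImplicit false
set_option linter.unusedSectionVars false
set_option linter.style.haveILetI false

open scoped BigOperators

noncomputable section

namespace Pool.Agent.PP.TW.H61

open Pool.Agent.Helper51_AWC Pool.Agent.Helper79_WRA Pool.Agent.PP Pool.Agent.PP.KF
open Pool.Agent.PP.K9 Pool.Agent.PP.K9.H97 Pool.Agent.PP.H75 Pool.Agent.PP.T3 Pool.Agent.PP.T2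
open Pool.Agent.PP.T5 Pool.Agent.PP.TB
open Pool.Agent.PP.T8 (rs pw fv rd Ip Rv vv Dat Fr)

attribute [local instance] Ideal.Quotient.field

/-- sums of invariant functions over sets without fixed points, characteristic two -/
theorem inv_sum {X R : Type*} [DecidableEq X] [CommRing R] (h2 : (2 : R) = 0) (s : X → X)
    (g : X → R) (hg : ∀ x, g (s x) = g x) : ∀ (k : ℕ) (S : Finset X), (∀ x ∈ S, s x ∈ S) →
    (∀ x ∈ S, s^[2 ^ k] x = x) → (∀ x ∈ S, s x ≠ x) → ∑ x ∈ S, g x = 0 := by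
  intro k
  induction k with
  | zero =>
    intro S _ h1 h3
    refine Finset.sum_eq_zero fun x hx => ?_
    exact absurd (h1 x hx) (h3 x hx)
  | succ k ih =>
    intro S hS h1 h3
    have hit : ∀ n : ℕ, ∀ x ∈ S, s^[n] x ∈ S := by
      intro n
      induction n with
      | zero => intro x hx; exact hx
      | succ n ihn =>
        intro x hx
        rw [Function.iterate_succ_apply']
        exact hS _ (ihn x hx)
    have hgi : ∀ n : ℕ, ∀ x, g (s^[n] x) = g x := by
      intro n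
      induction n with
      | zero => intro x; rfl
      | succ n ihn =>
        intro x
        rw [Function.iterate_succ_apply', hg, ihn]
    rw [← Finset.sum_filter_add_sum_filter_not S (fun x => s^[2 ^ k] x = x)]
    have e1 : ∑ x ∈ S.filter (fun x => s^[2 ^ k] x = x), g x = 0 := by
      refine ih _ ?_ ?_ ?_
      · intro x hx
        rw [Finset.mem_filter] at hx ⊢
        refine ⟨hS x hx.1, ?_⟩
        rw [← Function.iterate_succ_apply, Function.iterate_succ_apply', hx.2]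
      · intro x hx
        exact (Finset.mem_filter.1 hx).2
      · intro x hx
        exact h3 x (Finset.mem_filter.1 hx).1
    have hdd : ∀ x ∈ S, s^[2 ^ k] (s^[2 ^ k] x) = x := by
      intro x hx
      rw [← Function.iterate_add_apply, ← two_mul, ← pow_succ']
      exact h1 x hx
    have e2 : ∑ x ∈ S.filter (fun x => ¬ s^[2 ^ k] x = x), g x = 0 := by
      refine Finset.sum_involution (fun x _ => s^[2 ^ k] x) ?_ ?_ ?_ ?_
      · intro x _
        rw [hgi, ← two_mul, h2, zero_mul]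
      · intro x hx _
        exact (Finset.mem_filter.1 hx).2
      · intro x hx
        rw [Finset.mem_filter] at hx ⊢
        refine ⟨hit _ x hx.1, ?_⟩
        rw [hdd x hx.1]
        exact fun h => hx.2 h.symm
      · intro x hx
        exact hdd x (Finset.mem_filter.1 hx).1
    rw [e1, e2, add_zero]

theorem iter_pow {X : Type*} [Monoid X] (x : X) (n : ℕ) :
    (fun y : X => y ^ 3)^[n] x = x ^ 3 ^ n := by
  induction n with
  | zero => simp
  | succ n ih => rw [Function.iterate_succ_apply', ih, ← pow_mul, ← pow_succ]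

theorem three_pow (E : ℕ) : 3 ^ 2 ^ E ≡ 1 [MOD 2 ^ (E + 1)] := by
  have h : Nat.Coprime 3 (2 ^ (E + 1)) := Nat.Coprime.pow_right _ (by norm_num)
  have h2 := Nat.ModEq.pow_totient h
  rw [Nat.totient_prime_pow_succ Nat.prime_two] at h2
  simpa using h2

theorem three_pow_id {X : Type*} [Group X] (x : X) (E : ℕ) (h : x ^ 2 ^ (E + 1) = 1) :
    x ^ 3 ^ 2 ^ E = x := by
  have h5 : x ^ 3 ^ 2 ^ E = x ^ 1 := by
    rw [pow_eq_pow_iff_modEq]
    exact (three_pow E).of_dvd (orderOf_dvd_of_pow_eq_one h)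
  rw [h5, pow_one]

theorem sq_of_three {X : Type*} [Group X] (x : X) (h : x ^ 3 = x) : x ^ 2 = 1 := by
  have h5 : x ^ 2 * x = 1 * x := by
    rw [one_mul, ← pow_succ]
    exact h
  exact mul_right_cancel h5

theorem sq_one_of {X : Type*} [Group X] (x : X) (E : ℕ) (hE : x ^ 2 ^ (E + 1) = 1)
    (h : (x ^ 3) ^ 2 = 1) : x ^ 2 = 1 := by
  have h5 : (x ^ 2) ^ 3 = 1 := by rw [← pow_mul, mul_comm, pow_mul, h]
  have h6 : (x ^ 2) ^ 2 ^ (E + 1) = 1 := by rw [← pow_mul, mul_comm, pow_mul, hE, one_pow]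
  have h7 : orderOf (x ^ 2) ∣ Nat.gcd 3 (2 ^ (E + 1)) :=
    Nat.dvd_gcd (orderOf_dvd_of_pow_eq_one h5) (orderOf_dvd_of_pow_eq_one h6)
  have h8 : Nat.gcd 3 (2 ^ (E + 1)) = 1 := Nat.Coprime.pow_right _ (by norm_num)
  rw [h8, Nat.dvd_one] at h7
  exact orderOf_eq_one_iff.1 h7

theorem avp : AvpStmt := by
  intro M hM hlM G _ _ V hP hV f hf hf3 W hWV hW y hy
  classical
  haveI := T8.H95.finite_units V
  letI := Fintype.ofFinite (V →* ℂˣ)
  haveI := Fintype.ofFinite V
  haveI : Fact (Nat.Prime 2) := ⟨Nat.prime_two⟩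
  have h20 : (2 : FF M) = 0 := by
    have h := (Ideal.Quotient.eq_zero_iff_mem (I := M)).2 hlM
    rw [map_natCast] at h
    exact_mod_cast h
  obtain ⟨E, hE⟩ := (IsPGroup.iff_card (p := 2) (G := V)).1 hP
  have hEV : ∀ v : V, v ^ 2 ^ (E + 1) = 1 := by
    intro v
    rw [pow_succ, pow_mul, ← hE, pow_card_eq_one', one_pow]
  have hEX : ∀ χ : V →* ℂˣ, χ ^ 2 ^ (E + 1) = 1 := by
    intro χ
    ext v
    rw [MonoidHom.pow_apply, ← map_pow, hEV, map_one, MonoidHom.one_apply]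
  have hc : ∀ χ : V →* ℂˣ, T8.H95.cu V f (χ ^ 3) = T8.H95.cu V f χ := by
    intro χ
    refine T8.H95.cu_pow ?_ hf3 χ
    rw [hE]
    exact Nat.Coprime.pow_left E (by norm_num)
  let ev : (V →* ℂˣ) →* ℂ :=
    { toFun := fun χ => (χ ⟨y, hy⟩ : ℂ)
      map_one' := by simp
      map_mul' := by intro a b; simp }
  have hev : ∀ χ, ev χ = (χ ⟨y, hy⟩ : ℂ) := fun χ => rfl
  have hevRM : ∀ χ, ev χ ∈ RM M := by
    intro χ
    exact RM_of_int (T8.H21.lam_integral ((Units.coeHom ℂ).comp χ) ⟨y, hy⟩)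
  have hevr : ∀ χ, rr M (ev χ) = 1 := by
    intro χ
    refine (T3.H41.rr_root (ℓ := 2) hlM (k := E + 1) ?_).2
    rw [← map_pow, hEX, map_one]
  have hcRM : ∀ χ, T8.H95.cu V f χ ∈ RM M := fun χ => hf _
  -- the average
  have hA : (Nat.card W : ℂ)⁻¹ * ∑ᶠ w : W, f (y * w) =
      ∑ χ ∈ Finset.univ.filter (fun χ : V →* ℂˣ => ∀ w : W, χ ⟨w, hWV w.2⟩ = 1),
        T8.H95.cu V f χ * ev χ := by
    haveI := Fintype.ofFinite W
    rw [finsum_eq_sum_of_fintype]
    have h1 : ∀ w : W, f (y * w) =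
        ∑ χ : V →* ℂˣ, T8.H95.cu V f χ * ev χ * (χ ⟨w, hWV w.2⟩ : ℂ) := by
      intro w
      have h2 := T8.H95.inv_units hV f (⟨y, hy⟩ * ⟨w, hWV w.2⟩ : V)
      have h3 : ((⟨y, hy⟩ * ⟨w, hWV w.2⟩ : V) : G) = y * w := rfl
      rw [h3] at h2
      rw [h2]
      refine Finset.sum_congr rfl fun χ _ => ?_
      rw [map_mul, Units.val_mul, hev, mul_assoc]
    rw [Finset.sum_congr rfl fun w _ => h1 w, Finset.sum_comm, Finset.mul_sum, Finset.sum_filter]
    refine Finset.sum_congr rfl fun χ _ => ?_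
    rw [← Finset.mul_sum]
    have hcard : (Nat.card W : ℂ) ≠ 0 := by
      have : 0 < Nat.card W := Nat.card_pos
      exact_mod_cast this.ne'
    let ψ : W →* ℂ := (Units.coeHom ℂ).comp (χ.comp (Subgroup.inclusion hWV))
    have h4 : ∑ w : W, (χ ⟨w, hWV w.2⟩ : ℂ) = ∑ w : W, ψ w := rfl
    rw [h4, sum_hom_units ψ]
    have h5 : ψ = 1 ↔ ∀ w : W, χ ⟨w, hWV w.2⟩ = 1 := by
      constructor
      · intro h w
        have h7 := DFunLike.congr_fun h w
        ext
        exact h7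
      · intro h
        ext w
        show ((χ ⟨w, hWV w.2⟩ : ℂˣ) : ℂ) = 1
        rw [h w, Units.val_one]
    by_cases h6 : ∀ w : W, χ ⟨w, hWV w.2⟩ = 1
    · rw [if_pos h6, if_pos (h5.2 h6), ← Nat.card_eq_fintype_card]
      field_simp
    · rw [if_neg h6, if_neg (fun h => h6 (h5.1 h))]
      push_cast
      ring
  have hF : f y = ∑ χ : V →* ℂˣ, T8.H95.cu V f χ * ev χ := T8.H95.inv_units hV f ⟨y, hy⟩
  -- the residues
  have key : ∀ P : (V →* ℂˣ) → Prop, (∀ χ, P χ → P (χ ^ 3)) → (∀ χ, χ ^ 2 = 1 → P χ) →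
      rr M (∑ χ ∈ Finset.univ.filter P, T8.H95.cu V f χ * ev χ) =
      ∑ χ ∈ Finset.univ.filter (fun χ : V →* ℂˣ => χ ^ 2 = 1), rr M (T8.H95.cu V f χ) := by
    intro P hP3 hP2
    rw [rr_sum _ _ fun χ _ => (RM M).mul_mem (hcRM χ) (hevRM χ)]
    have e1 : ∀ χ ∈ Finset.univ.filter P, rr M (T8.H95.cu V f χ * ev χ) = rr M (T8.H95.cu V f χ) := by
      intro χ _
      rw [rr_mul (hcRM χ) (hevRM χ), hevr, mul_one]
    rw [Finset.sum_congr rfl e1, ← Finset.sum_filter_add_sum_filter_not (Finset.univ.filter P)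
      (fun χ : V →* ℂˣ => χ ^ 2 = 1)]
    have e2 : (Finset.univ.filter P).filter (fun χ : V →* ℂˣ => χ ^ 2 = 1) =
        Finset.univ.filter (fun χ : V →* ℂˣ => χ ^ 2 = 1) := by
      ext χ
      simp only [Finset.mem_filter, Finset.mem_univ, true_and]
      exact ⟨fun h => h.2, fun h => ⟨hP2 χ h, h⟩⟩
    have e3 : ∑ χ ∈ (Finset.univ.filter P).filter (fun χ : V →* ℂˣ => ¬ χ ^ 2 = 1),
        rr M (T8.H95.cu V f χ) = 0 := by
      refine inv_sum h20 (fun χ : V →* ℂˣ => χ ^ 3) (fun χ => rr M (T8.H95.cu V f χ))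
        (fun χ => by rw [hc]) E _ ?_ ?_ ?_
      · intro χ hχ
        simp only [Finset.mem_filter, Finset.mem_univ, true_and] at hχ ⊢
        refine ⟨hP3 χ hχ.1, fun h => hχ.2 ?_⟩
        exact sq_one_of χ E (hEX χ) h
      · intro χ _
        rw [iter_pow]
        exact three_pow_id χ E (hEX χ)
      · intro χ hχ h
        simp only [Finset.mem_filter, Finset.mem_univ, true_and] at hχ
        exact hχ.2 (sq_of_three χ h)
    rw [e2, e3, add_zero]
  refine ⟨?_, ?_, ?_⟩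
  · rw [hF]
    exact Subring.sum_mem _ fun χ _ => (RM M).mul_mem (hcRM χ) (hevRM χ)
  · rw [hA]
    exact Subring.sum_mem _ fun χ _ => (RM M).mul_mem (hcRM χ) (hevRM χ)
  · have k1 := key (fun χ : V →* ℂˣ => ∀ w : W, χ ⟨w, hWV w.2⟩ = 1) (by
      intro χ h w
      rw [MonoidHom.pow_apply, h w, one_pow]) (by
      intro χ h w
      obtain ⟨x, hx, hwx⟩ := hW w w.2
      have h1 : (⟨w, hWV w.2⟩ : V) = (⟨x, hx⟩ : V) ^ 2 := by
        ext
        exact hwx
      rw [h1, map_pow, ← MonoidHom.pow_apply, h, MonoidHom.one_apply])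
    have k2 := key (fun _ => True) (fun _ _ => trivial) (fun _ _ => trivial)
    rw [Finset.filter_true] at k2
    rw [hA, hF, k1, k2]

end Pool.Agent.PP.TW.H61
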