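import Pool.Agent.ATW.Stmts

/-!
# HCO: the function of a pair of characters
-/

set_option autoImplicit false
set_option linter.unusedSectionVars false

open scoped BigOperators

noncomputable section

namespace Pool.Agent.PP.TW.H61

open Pool.Agent.Helper51_AWC Pool.Agent.Helper79_WRA Pool.Agent.PP Pool.Agent.PP.KF
open Pool.Agent.PP.K9 Pool.Agent.PP.K9.H97 Pool.Agent.PP.H75 Pool.Agent.PP.T3 Pool.Agent.PP.T2
open Pool.Agent.PP.T5 Pool.Agent.PP.TB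
open Pool.Agent.PP.T8 (rs pw fv rd Ip Rv vv Dat Fr)

attribute [local instance] Ideal.Quotient.field

theorem ivz' (h1 : TB.ZcpStmt) (h2 : T5.KerStmt) (ℓ : ℕ) [Fact ℓ.Prime]
    (M : Ideal (integralClosure ℤ ℂ)) [M.IsMaximal] (hM : (ℓ : integralClosure ℤ ℂ) ∈ M)
    (G : Type) [Group G] [Finite G] (e : G → FF M) (V Z : Subgroup G) (γ : G → FF M)
    (b : G → G → FF M) (hZ : Zd ℓ e V Z γ b) (N : ℕ) (hNc : N.Coprime (Nat.card G))
    (hNr : ∀ g : G, Reg ℓ g → g ^ N = g) (z : G) (hz : z ∈ Z) (χ : G → ℂ) (hχ : χ ∈ Irr G)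
    (hχN : ∀ g, χ (g ^ N) = χ g) (ψ : G → ℂ) (hψ : ψ ∈ Irr G) (hψN : ∀ g, ψ (g ^ N) = ψ g) :
    Az M ℓ V Z γ b χ ψ (z ^ N) = Az M ℓ V Z γ b χ ψ z := by
  rcases eq_or_ne z 1 with rfl | hz1
  · rw [one_pow]
  have hp : ℓ.Prime := Fact.out
  have hN' : ¬ ℓ ∣ N := by
    have hzV : z ∈ V := hZ.le hz
    obtain ⟨n, hn⟩ := hZ.tp.pg ⟨z, hzV⟩
    have hn' : z ^ ℓ ^ n = 1 := congrArg Subtype.val hn
    obtain ⟨k, -, hk⟩ := (Nat.dvd_prime_pow hp).1 (orderOf_dvd_of_pow_eq_one hn')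
    have hk0 : k ≠ 0 := by
      rintro rfl
      rw [pow_zero, orderOf_eq_one_iff] at hk
      exact hz1 hk
    have hd : ℓ ∣ Nat.card G := (dvd_pow_self ℓ hk0).trans (hk ▸ orderOf_dvd_natCard z)
    intro h
    have h3 := Nat.dvd_gcd h hd
    rw [hNc.gcd_eq_one] at h3
    exact hp.one_lt.ne' (Nat.dvd_one.1 h3)
  obtain ⟨c1, c2, c3⟩ := (h1 ℓ M hM G e V Z γ b hZ).2.1 z hz N hN'
  have hix : Ix (Cu z) (b z) := (hZ.lb z hz).1.bx.ix
  have key : ∀ s ∈ Cu z, Reg ℓ s → ∀ κ ∈ Irr G, (∀ g, κ (g ^ N) = κ g) →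
      gv M (Cu z) (z ^ N * s) (b z) κ = gv M (Cu z) (z * s) (b z) κ := by
    intro s hs hsr κ hκ hκN
    rw [h2 ℓ M hM G z (z ^ N) (fun c hc => by
        have h4 : Commute c z := Subgroup.mem_centralizer_singleton_iff.1 hc
        exact (h4.pow_right N).symm.eq) (b z) hix s hs hsr κ hκ,
      h2 ℓ M hM G z z (fun c hc => (Subgroup.mem_centralizer_singleton_iff.1 hc).symm) (b z) hix
        s hs hsr κ hκ]
    congr 1
    apply finsum_congr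
    intro c
    apply finsum_congr_Prop rfl
    rintro ⟨hc, hcr⟩
    congr 1
    have h4 : Commute z c := (Subgroup.mem_centralizer_singleton_iff.1 hc).symm
    rw [← hκN (z * c), h4.mul_pow, hNr c hcr]
  unfold Az
  rw [c1, c2, c3]
  congr 1
  unfold mm
  congr 1
  apply finsum_congr
  intro s
  apply finsum_congr_Prop rfl
  rintro ⟨hs, hsr⟩
  rw [key s hs hsr χ hχ hχN, key s hs hsr ψ hψ hψN]

theorem hco (hSTA : StaStmt) (hMMV : MmvStmt) (hZCP : TB.ZcpStmt) (hKER : T5.KerStmt)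
    (hLOC : T3.LocStmt) : HcoStmt := by
  intro ℓ hℓ M hM hlM G _ _ e V γ b d c ε hD χ hχ ψ hψ
  obtain ⟨b', hZd, hSt⟩ := hSTA ℓ M hlM G e V γ hD.ld
  refine ⟨Az M ℓ V V γ b' χ ψ, hSt χ hχ ψ hψ, ?_, ?_⟩
  · intro u hu
    have hb : b' u = b u := by
      refine (hLOC ℓ (FF M) (H50.fld ℓ Fact.out M hlM) G e V γ hD.ld u hu.1).2 _ _ ?_ (hD.lc u hu)
      exact ⟨(hZd.lb u hu.1).1.bx, (hZd.lb u hu.1).1.und, (hZd.lb u hu.1).2⟩
    have hc : cz V V γ u = 1 := by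
      rw [cz, Subgroup.relIndex_eq_one]
      exact le_inf hu.2.2 inf_le_left
    rw [Az, hb, hc, Nat.cast_one, mul_one]
    exact hMMV ℓ M hlM G e V γ b d c ε hD u hu χ hχ.1 ψ hψ.1
  · intro N hNc hNr hχN hψN v hv
    exact ivz' hZCP hKER ℓ M hlM G e V V γ b' hZd N hNc hNr v hv χ hχ.1 hχN ψ hψ.1 hψN

end Pool.Agent.PP.TW.H61
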