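import Pool.Agent.ATW.Stmts
import Pool.Agent.Helper39_AT2.VJC

/-!
# VAL: the values of the fixed characters
-/

set_option autoImplicit false
set_option linter.unusedSectionVars false

open scoped BigOperators

noncomputable section

namespace Pool.Agent.PP.TW.H61

open Pool.Agent.Helper51_AWC Pool.Agent.Helper79_WRA Pool.Agent.PP Pool.Agent.PP.KF
open Pool.Agent.PP.K9 Pool.Agent.PP.K9.H97 Pool.Agent.PP.H75 Pool.Agent.PP.T3 Pool.Agent.PP.T2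
open Pool.Agent.PP.T5 Pool.Agent.PP.TB
open Pool.Agent.PP.T8 (rs pw fv rd Ip Rv vv Dat Fr)

attribute [local instance] Ideal.Quotient.field

theorem r2_sq : r2 ^ 2 = -2 := by
  rw [r2, mul_pow, Complex.I_sq, ← Complex.ofReal_pow, Real.sq_sqrt (by norm_num)]
  push_cast
  ring

theorem r2_int : IsIntegral ℤ r2 := by
  refine ⟨Polynomial.X ^ 2 + Polynomial.C 2, ?_, ?_⟩
  · exact Polynomial.monic_X_pow_add_C _ (by norm_num)
  · simp [r2_sq]

theorem r2_rr {M : Ideal (integralClosure ℤ ℂ)} [M.IsMaximal]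
    (hlM : ((2 : ℕ) : integralClosure ℤ ℂ) ∈ M) : r2 ∈ RM M ∧ rr M r2 = 0 := by
  have h1 : r2 ∈ RM M := RM_of_int r2_int
  refine ⟨h1, ?_⟩
  have h2 : rr M r2 * rr M r2 = 0 := by
    rw [← rr_mul h1 h1, ← pow_two, r2_sq]
    have h3 := (dvd_of_rr (M := M) Nat.prime_two hlM (n := -2)).2 (by norm_num)
    push_cast at h3
    exact h3
  exact mul_self_eq_zero.1 h2

theorem sg8_one : sg8 1 = 1 := by
  simp [sg8]

theorem val_three {N : ℕ} {M : Ideal (integralClosure ℤ ℂ)} [M.IsMaximal]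
    (hM : ((2 : ℕ) : integralClosure ℤ ℂ) ∈ M) {G : Type} [Group G] [Finite G] (hN : G3 G N)
    {u : G} (hu : El 2 u) {b : G → FF M} (hb : Ix (Cu u) b) {χ : G → ℂ}
    (hfix : ∀ g, χ (g ^ N) = χ g) (j : ℕ) :
    gv M (Cu u) (u ^ (3 * j)) b χ = gv M (Cu u) (u ^ j) b χ := by
  haveI : Fact (Nat.Prime 2) := ⟨Nat.prime_two⟩
  unfold gv gbv
  refine finsum_congr fun c => ?_
  by_cases hc : Reg 2 c
  · have hc' : Reg 2 (c : G) := T2.H39.reg_coe' hc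
    have hcomm : Commute u (c : G) := (Subgroup.mem_centralizer_singleton_iff.1 c.2).symm
    have hEl : El 2 (u ^ j) := by
      obtain ⟨n, hn⟩ := hu
      exact ⟨n, by rw [← pow_mul, mul_comm, pow_mul, hn, one_pow]⟩
    have h1 : u ^ (3 * j) = (u ^ j) ^ N := by
      rw [hN.pow _ hEl, ← pow_mul, mul_comm]
    have h2 : Commute (u ^ j) (c : G) := hcomm.pow_left j
    have h3 : χ (u ^ (3 * j) * c) = χ (u ^ j * c) := by
      rw [← hfix (u ^ j * c), h2.mul_pow, hN.reg c hc', h1]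
    rw [h3]
  · have := Fintype.ofFinite (Cu u)
    rw [H25.eh_sing (H82W.wbo (H82.trb H53.tra)) 2 M hM _ hb.idem c hc, zero_mul, zero_mul]

theorem val (hINR : T3.InrStmt) (hDPV : DpvStmt) (hZI2 : Zi2Stmt) (hHT2 : Ht2Stmt) : ValStmt := by
  intro M hM hlM G _ _ N hN a e V γ b d c ε y w hS χ hχ u hu
  haveI : Fact (Nat.Prime 2) := ⟨Nat.prime_two⟩
  have hD := hS.dat
  have ha : 0 < a := lt_of_lt_of_le (by norm_num) hS.le
  have hpow : ∀ j : ℕ, ¬ 2 ∣ j → Rg V γ (u ^ j) ∧ Cu (u ^ j) = Cu u ∧ b (u ^ j) = b u ∧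
      d (u ^ j) = d u := fun j hj => (hDPV 2 M hlM G e V γ b d c ε hD).2 u hu j hj
  have hu2 : u ^ 2 ^ a = 1 := by
    have h := Monoid.pow_exponent_eq_one (⟨u, hu.1⟩ : V)
    rw [hS.exp] at h
    exact congrArg Subtype.val h
  have hix : Ix (Cu u) (b u) := (hD.lc u hu).blk.ix
  obtain ⟨hd0, -⟩ := hD.dg u hu
  have hdC : (d u : ℂ) ≠ 0 := by exact_mod_cast hd0.ne'
  have hζ := Complex.isPrimitiveRoot_exp (2 ^ a) (pow_ne_zero a (by norm_num))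
  obtain ⟨m, hm⟩ := hINR M G u (2 ^ a) (pow_pos (by norm_num) a) hu2 (b u) hix (d u)
    (hD.dg u hu) _ hζ χ hχ.1.1
  set x : ℕ → ℂ := fun j => ∑ i ∈ Finset.range (2 ^ a), (m i : ℂ) *
    (Complex.exp (2 * Real.pi * Complex.I / ((2 ^ a : ℕ) : ℂ))) ^ (i * j) with hx
  have hgx : ∀ j : ℕ, gv M (Cu u) (u ^ j) (b u) χ = d u * x j := fun j => hm j
  have hx3 : ∀ j : ℕ, ¬ 2 ∣ j → x (3 * j) = x j := by
    intro j _
    have h := val_three hlM hN (u := u) ⟨a, hu2⟩ hix hχ.2 j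
    rw [hgx, hgx] at h
    exact mul_left_cancel₀ hdC h
  obtain ⟨p, q, h1, h2⟩ := hZI2 a ha _ hζ m x (fun j => rfl) hx3
  have hv : ∀ j : ℕ, ¬ 2 ∣ j → vv M b d (u ^ j) χ = p + sg8 j * q * r2 := by
    intro j hj
    obtain ⟨-, e1, e2, e3⟩ := hpow j hj
    rw [← h1 j hj, vv, e1, e2, e3, hgx, mul_div_cancel_left₀ _ hdC]
  refine ⟨p, q, hv, h2, ?_⟩
  obtain ⟨h3, h4⟩ := hHT2 M hlM G a e V γ b d c ε y w hS χ hχ.1 u hu
  have h5 := hv 1 (by norm_num)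
  rw [pow_one, sg8_one] at h5
  obtain ⟨r1, r3⟩ := r2_rr hlM
  rw [← Int.not_even_iff_odd]
  intro hp
  apply h4
  rw [h5]
  have k1 : ((1 : ℤ) : ℂ) * (q : ℂ) * r2 ∈ RM M :=
    (RM M).mul_mem ((RM M).mul_mem (rr_int 1).1 (rr_int q).1) r1
  rw [rr_add (rr_int p).1 k1, rr_mul ((RM M).mul_mem (rr_int 1).1 (rr_int q).1) r1, r3, mul_zero,
    add_zero]
  exact (dvd_of_rr (M := M) Nat.prime_two hlM (n := p)).2 (by exact_mod_cast hp.two_dvd)

end Pool.Agent.PP.TW.H61
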