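import Pool.Agent.ATW.Stmts
import Pool.Agent.Helper61_ATW.VAL

/-!
# NR3: the number of the fixed characters
-/

set_option autoImplicit false
set_option linter.unusedSectionVars false

open scoped BigOperators

noncomputable section

namespace Pool.Agent.PP.TW.H61

open Pool.Agent.Helper51_AWC Pool.Agent.Helper79_WRA Pool.Agent.PP Pool.Agent.PP.KF
open Pool.Agent.PP.K9 Pool.Agent.PP.K9.H97 Pool.Agent.PP.H75 Pool.Agent.PP.T3 Pool.Agent.PP.T2
open Pool.Agent.PP.T5 Pool.Agent.PP.TB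
open Pool.Agent.PP.T8 (rs pw fv rd Ip Rv vv Dat Fr)

attribute [local instance] Ideal.Quotient.field

/-- the odd numbers below `2 ^ a` -/
def Od (a : ℕ) : Finset ℕ := (Finset.range (2 ^ a)).filter (fun j => ¬ 2 ∣ j)

theorem card_odd (k : ℕ) : ((Finset.range (2 * k)).filter (fun j => ¬ 2 ∣ j)).card = k := by
  induction k with
  | zero => rfl
  | succ k ih =>
    have h1 : 2 * (k + 1) = 2 * k + 1 + 1 := by ring
    rw [h1, Finset.range_add_one, Finset.range_add_one, Finset.filter_insert, if_pos (by omega),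
      Finset.filter_insert, if_neg (by omega), Finset.card_insert_of_notMem, ih]
    simp

theorem card_Od {a : ℕ} (ha : 0 < a) : (Od a).card = 2 ^ (a - 1) := by
  obtain ⟨k, rfl⟩ : ∃ k, a = k + 1 := ⟨a - 1, by omega⟩
  rw [Od, pow_succ, mul_comm, card_odd, Nat.add_sub_cancel]

theorem sum_sg8 (k : ℕ) :
    ∑ j ∈ Finset.range (8 * k), (if ¬ 2 ∣ j then sg8 j else 0) = 0 := by
  induction k with
  | zero => rfl
  | succ k ih =>
    have e : ∀ i : ℕ, (8 * k + i) % 8 = i % 8 := by intro i; omega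
    have h1 : 8 * (k + 1) = 8 * k + 8 := by ring
    rw [h1, Finset.sum_range_add, ih, zero_add]
    simp only [Finset.sum_range_succ, Finset.sum_range_zero, sg8, e]
    have d0 : 2 ∣ 8 * k + 0 := by omega
    have d1 : ¬ 2 ∣ 8 * k + 1 := by omega
    have d2 : 2 ∣ 8 * k + 2 := by omega
    have d3 : ¬ 2 ∣ 8 * k + 3 := by omega
    have d4 : 2 ∣ 8 * k + 4 := by omega
    have d5 : ¬ 2 ∣ 8 * k + 5 := by omega
    have d6 : 2 ∣ 8 * k + 6 := by omega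
    have d7 : ¬ 2 ∣ 8 * k + 7 := by omega
    simp only [d1, d2, d3, d4, d5, d6, d7]
    have dd : 2 ∣ 8 * k := by omega
    simp [dd]

theorem sum_Od {a : ℕ} (ha : 3 ≤ a) : ∑ j ∈ Od a, sg8 j = 0 := by
  obtain ⟨k, rfl⟩ : ∃ k, a = k + 3 := ⟨a - 3, by omega⟩
  rw [Od, Finset.sum_filter, pow_add]
  have h := sum_sg8 (2 ^ k)
  rw [mul_comm] at h
  exact h

/-- the norm of the sum -/
theorem norm_ge {a : ℕ} (ha : 2 ≤ a) {s : ℤ} {p q p' q' : ℤ} (hq : a ≤ 2 → q = 0)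
    (hq' : a ≤ 2 → q' = 0) {x x' : ℕ → ℂ} (hx : ∀ j, ¬ 2 ∣ j → x j = p + sg8 j * q * r2)
    (hx' : ∀ j, ¬ 2 ∣ j → x' j = p' + sg8 j * q' * r2) (h4 : 4 ≤ (p + s * p') ^ 2) :
    (4 : ℝ) ^ a ≤ Complex.normSq (∑ j ∈ Od a, (x j + s * x' j)) := by
  have h1 : ∑ j ∈ Od a, (x j + s * x' j) = (((2 : ℤ) ^ (a - 1) * (p + s * p') : ℤ) : ℂ) := by
    have h2 : ∀ j ∈ Od a, x j + s * x' j =
        (p + s * p') + (sg8 j : ℂ) * ((q + s * q') * r2) := by
      intro j hj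
      have hj2 : ¬ 2 ∣ j := (Finset.mem_filter.1 hj).2
      rw [hx j hj2, hx' j hj2]
      ring
    rw [Finset.sum_congr rfl h2, Finset.sum_add_distrib, Finset.sum_const, card_Od (by omega),
      ← Finset.sum_mul]
    have h3 : (∑ j ∈ Od a, (sg8 j : ℂ)) * ((q + s * q') * r2) = 0 := by
      rcases Nat.lt_or_ge 2 a with h | h
      · have h5 := sum_Od (a := a) h
        have h6 : ∑ j ∈ Od a, (sg8 j : ℂ) = 0 := by
          rw [← Int.cast_sum, h5, Int.cast_zero]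
        rw [h6, zero_mul]
      · rw [hq h, hq' h]
        push_cast
        ring
    rw [h3, add_zero, nsmul_eq_mul]
    push_cast
    ring
  rw [h1]
  have h7 : Complex.normSq ((((2 : ℤ) ^ (a - 1) * (p + s * p') : ℤ) : ℂ)) =
      ((((2 : ℤ) ^ (a - 1) * (p + s * p')) ^ 2 : ℤ) : ℝ) := by
    have h8 : ((((2 : ℤ) ^ (a - 1) * (p + s * p') : ℤ) : ℂ)) =
        ((((2 : ℤ) ^ (a - 1) * (p + s * p') : ℤ) : ℝ) : ℂ) := by
      push_cast
      rfl
    rw [h8, Complex.normSq_ofReal]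
    push_cast
    ring
  rw [h7]
  have h9 : (4 : ℤ) ^ a ≤ ((2 : ℤ) ^ (a - 1) * (p + s * p')) ^ 2 := by
    obtain ⟨k, rfl⟩ : ∃ k, a = k + 1 := ⟨a - 1, by omega⟩
    rw [Nat.add_sub_cancel, mul_pow, ← pow_mul, mul_comm k 2, pow_mul, pow_succ]
    exact mul_le_mul_of_nonneg_left h4 (by positivity)
  exact_mod_cast h9

theorem nr3 (hVAL : ValStmt) (hBDV : BdvStmt) (hARW : ArwStmt) (hBWS : BwsStmt) (hRGW : RgwStmt) :
    Nr3Stmt := by
  intro M hM hlM G _ _ N hN a e V γ b d c ε y w hS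
  classical
  have hIrr : (Irr G).Finite := by
    haveI := Fintype.ofFinite G
    exact irr_finite'
  rcases Set.eq_empty_or_nonempty (Rf M N e) with h0 | ⟨ψ, hψ⟩
  · rw [h0, Set.ncard_empty]
    exact Nat.zero_le _
  have hsub : Rf M N e ⊆ Irr G := fun χ hχ => hχ.1.1
  have hRfin : (Rf M N e).Finite := hIrr.subset hsub
  obtain ⟨g1, -, -, -⟩ := hRGW M hlM G a e V γ b d c ε y w hS
  have hy : Rg V γ y := by
    have := g1 1 0 (by norm_num)
    rwa [pow_one, pow_zero, mul_one] at this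
  have hyw : Rg V γ (y * w) := by
    have := g1 1 1 (by norm_num)
    rwa [pow_one, pow_one] at this
  obtain ⟨p0, q0, h0⟩ := hVAL M hlM G N hN a e V γ b d c ε y w hS ψ hψ y hy
  obtain ⟨p0', q0', h0'⟩ := hVAL M hlM G N hN a e V γ b d c ε y w hS ψ hψ (y * w) hyw
  obtain ⟨b1, -⟩ := hBDV M hlM G N hN a e V γ b d c ε y w hS ψ hψ ψ hψ p0 q0 p0' q0' p0 q0 p0' q0'
    h0 h0' h0 h0'
  obtain ⟨s, hs1, hs2⟩ : ∃ s : ℤ, (s = 1 ∨ s = -1) ∧ s ≡ p0 * p0' [ZMOD 4] := by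
    have ho : Odd (p0 * p0') := h0.2.2.mul h0'.2.2
    obtain ⟨k, hk⟩ := ho
    rw [hk]
    rcases Int.even_or_odd k with ⟨l, hl⟩ | ⟨l, hl⟩
    · refine ⟨1, Or.inl rfl, ?_⟩
      rw [Int.ModEq]
      omega
    · refine ⟨-1, Or.inr rfl, ?_⟩
      rw [Int.ModEq]
      omega
  have hB := hBWS M hlM G a e V γ b d c ε y w hS s hs1
  have hge : ∀ χ ∈ Rf M N e, (4 : ℝ) ^ a ≤ Complex.normSq
      (∑ j ∈ (Finset.range (2 ^ a)).filter (fun j => ¬ 2 ∣ j),
        (vv M b d (y ^ j) χ + s * vv M b d ((y * w) ^ j) χ)) := by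
    intro χ hχ
    obtain ⟨p, q, h1⟩ := hVAL M hlM G N hN a e V γ b d c ε y w hS χ hχ y hy
    obtain ⟨p', q', h1'⟩ := hVAL M hlM G N hN a e V γ b d c ε y w hS χ hχ (y * w) hyw
    obtain ⟨b2, b3⟩ := hBDV M hlM G N hN a e V γ b d c ε y w hS χ hχ ψ hψ p q p' q' p0 q0 p0' q0'
      h1 h1' h0 h0'
    obtain ⟨-, h4⟩ := hARW p q p' q' p0 q0 p0' q0' h1.2.2 h1'.2.2 h0.2.2 h0'.2.2 b2 b1 b3
    exact norm_ge hS.le h1.2.1 h1'.2.1 h1.1 h1'.1 (h4 s hs1 hs2)
  have hcard : Nat.card V ≤ 4 ^ a := hS.card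
  have hsum : (4 : ℝ) ^ a * (Rf M N e).ncard ≤ 2 ^ a * 4 ^ a := by
    have e1 : (4 : ℝ) ^ a * (Rf M N e).ncard = ∑ χ ∈ hRfin.toFinset, (4 : ℝ) ^ a := by
      rw [Finset.sum_const, nsmul_eq_mul, Set.ncard_eq_toFinset_card _ hRfin]
      ring
    rw [e1]
    calc ∑ χ ∈ hRfin.toFinset, (4 : ℝ) ^ a
        ≤ ∑ χ ∈ hRfin.toFinset, Complex.normSq
          (∑ j ∈ (Finset.range (2 ^ a)).filter (fun j => ¬ 2 ∣ j),
          (vv M b d (y ^ j) χ + s * vv M b d ((y * w) ^ j) χ)) :=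
          Finset.sum_le_sum fun χ hχ => hge χ (hRfin.mem_toFinset.1 hχ)
      _ ≤ ∑ χ ∈ hIrr.toFinset, Complex.normSq
          (∑ j ∈ (Finset.range (2 ^ a)).filter (fun j => ¬ 2 ∣ j),
          (vv M b d (y ^ j) χ + s * vv M b d ((y * w) ^ j) χ)) := by
          refine Finset.sum_le_sum_of_subset_of_nonneg ?_ fun χ _ _ => Complex.normSq_nonneg _
          intro χ hχ
          rw [Set.Finite.mem_toFinset] at hχ ⊢
          exact hsub hχ
      _ = 2 ^ a * Nat.card V := by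
          rw [← hB, finsum_mem_eq_finite_toFinset_sum _ hIrr]
      _ ≤ 2 ^ a * 4 ^ a := by
          refine mul_le_mul_of_nonneg_left ?_ (by positivity)
          exact_mod_cast hcard
  have h4 : (0 : ℝ) < 4 ^ a := by positivity
  rw [mul_comm ((2 : ℝ) ^ a)] at hsum
  have h5 := le_of_mul_le_mul_left hsum h4
  exact_mod_cast h5

end Pool.Agent.PP.TW.H61
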